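import Pool.Agent.Helper29.GW.Eq

/-!
# The games determine the truth of MSO₂ and MSO sentences
-/

set_option autoImplicit false

namespace Pool.Agent.Helper12.GW

open Pool.Agent.Helper20.Spectra Pool.Agent.Helper29.TD Pool.Agent.Helper29.MW Pool.Agent.Helper29.GW

/-- the structure with the marked elements `v` -/
abbrev mkd {S : Type} {ar : S → ℕ} {M : Type} {k : ℕ} (I : Interp S ar M) (v : Fin k → M) :
    Interp (S ⊕ (Fin k ⊕ Fin 0)) (xAr ar k 0) M := xp I v (fun j => j.elim0)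

/-! ### The renamings -/

/-- renaming: the new symbol `none` is the new set -/
def nτ (S Y : Type) : Option S ⊕ Y → Option (S ⊕ Y)
  | Sum.inl none => none
  | Sum.inl (some s) => some (Sum.inl s)
  | Sum.inr y => some (Sum.inr y)

lemma nτ_inj (S Y : Type) : Function.Injective (nτ S Y) := by
  rintro ((_ | s) | y) ((_ | s') | y') h
  · rfl
  · exact absurd h (by simp [nτ])
  · exact absurd h (by simp [nτ])
  · exact absurd h (by simp [nτ])
  · have h1 : (some (Sum.inl s) : Option (S ⊕ Y)) = some (Sum.inl s') := h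
    rw [Sum.inl_injective (Option.some.inj h1)]
  · exact absurd h (by simp [nτ])
  · exact absurd h (by simp [nτ])
  · exact absurd h (by simp [nτ])
  · have h1 : (some (Sum.inr y) : Option (S ⊕ Y)) = some (Sum.inr y') := h
    rw [Sum.inr_injective (Option.some.inj h1)]

lemma nτ_ar {S : Type} (ar : S → ℕ) (k : ℕ) : ∀ s, xAr (adAr ar 1) k 0 s =
    exAr (xAr ar k 0) (nτ S (Fin k ⊕ Fin 0) s)
  | Sum.inl none => rfl
  | Sum.inl (some _) => rfl
  | Sum.inr _ => rfl

/-- the set given by a unary relation -/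
def setOf1 {M : Type} (X : (Fin 1 → M) → Prop) : Set M := {x | X (fun _ => x)}

/-- the unary relation given by a set -/
def relOf1 {M : Type} (X : Set M) : (Fin 1 → M) → Prop := fun u => u 0 ∈ X

lemma setOf1_iff {M : Type} (X : (Fin 1 → M) → Prop) (u : Fin 1 → M) : X u ↔ u 0 ∈ setOf1 X := by
  have e : u = fun _ => u 0 := by
    funext i
    rw [Subsingleton.elim i 0]
  show X u ↔ X (fun _ => u 0)
  rw [← e]

section

variable {S : Type} {ar : S → ℕ} {M : Type} {k : ℕ}

lemma red_n (I : Interp S ar M) (v : Fin k → M) (X : (Fin 1 → M) → Prop) (A : Set M)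
    (h : ∀ u, X u ↔ u 0 ∈ A) :
    IsRed (nτ S (Fin k ⊕ Fin 0)) (nτ_ar ar k) (mkd (adI I X : Interp (Option S) (adAr ar 1) M) v)
      (exI (mkd I v) A)
  | Sum.inl none, u => h u
  | Sum.inl (some _), _ => Iff.rfl
  | Sum.inr (Sum.inl _), _ => Iff.rfl
  | Sum.inr (Sum.inr j), _ => j.elim0

end

/-- renaming: the new symbol `none` is the subrelation of the relation `s` -/
def bτ {S : Type} (Y : Type) (s : S) : Option S ⊕ Y → Option ((S ⊕ Y) ⊕ (S ⊕ Y))
  | Sum.inl none => some (Sum.inr (Sum.inl s))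
  | Sum.inl (some s') => some (Sum.inl (Sum.inl s'))
  | Sum.inr y => some (Sum.inl (Sum.inr y))

lemma bτ_inj {S : Type} (Y : Type) (s : S) : Function.Injective (bτ Y s) := by
  rintro ((_ | s1) | y) ((_ | s2) | y') h
  · rfl
  · exact absurd h (by simp [bτ])
  · exact absurd h (by simp [bτ])
  · exact absurd h (by simp [bτ])
  · have h1 : (some (Sum.inl (Sum.inl s1)) : Option ((S ⊕ Y) ⊕ (S ⊕ Y))) =
      some (Sum.inl (Sum.inl s2)) := h
    rw [Sum.inl_injective (Sum.inl_injective (Option.some.inj h1))]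
  · exact absurd h (by simp [bτ])
  · exact absurd h (by simp [bτ])
  · exact absurd h (by simp [bτ])
  · have h1 : (some (Sum.inl (Sum.inr y)) : Option ((S ⊕ Y) ⊕ (S ⊕ Y))) =
      some (Sum.inl (Sum.inr y')) := h
    rw [Sum.inr_injective (Sum.inl_injective (Option.some.inj h1))]

lemma bτ_ar {S : Type} (ar : S → ℕ) (k : ℕ) (s : S) : ∀ t, xAr (adAr ar (ar s)) k 0 t =
    fAr (xAr ar k 0) (bτ (Fin k ⊕ Fin 0) s t)
  | Sum.inl none => rfl
  | Sum.inl (some _) => rfl
  | Sum.inr _ => rfl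

section

variable {S : Type} {ar : S → ℕ} {M : Type} {k : ℕ}

lemma red_b (I : Interp S ar M) (v : Fin k → M) (s : S) (R : (Fin (ar s) → M) → Prop) (A : Set M)
    (T : Interp (S ⊕ (Fin k ⊕ Fin 0)) (xAr ar k 0) M) (h : ∀ u : Fin (ar s) → M, R u ↔ T (Sum.inl s) u) :
    IsRed (bτ (Fin k ⊕ Fin 0) s) (bτ_ar ar k s)
      (mkd (adI I R : Interp (Option S) (adAr ar (ar s)) M) v) (fI (mkd I v) A T)
  | Sum.inl none, u => h u
  | Sum.inl (some _), _ => Iff.rfl
  | Sum.inr (Sum.inl _), _ => Iff.rfl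
  | Sum.inr (Sum.inr j), _ => j.elim0

end

lemma eτ_inj (S : Type) (k : ℕ) : Function.Injective (eτ S k 0) := by
  have key : ∀ (i : Fin (k + 1)) (t : S ⊕ (Fin k ⊕ Fin 0)),
      (Fin.cases none (fun i => some (Sum.inr (Sum.inl i))) i : Option (S ⊕ (Fin k ⊕ Fin 0))) = some t →
      ∃ j : Fin k, i = j.succ ∧ t = Sum.inr (Sum.inl j) := by
    intro i t
    refine Fin.cases ?_ (fun j => ?_) i
    · intro h
      exact absurd h (by simp)
    · intro h
      have h' : (some (Sum.inr (Sum.inl j)) : Option (S ⊕ (Fin k ⊕ Fin 0))) = some t := h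
      exact ⟨j, rfl, (Option.some.inj h').symm⟩
  have key0 : ∀ i : Fin (k + 1),
      (Fin.cases none (fun i => some (Sum.inr (Sum.inl i))) i : Option (S ⊕ (Fin k ⊕ Fin 0))) = none →
      i = 0 := by
    intro i
    refine Fin.cases ?_ (fun j => ?_) i
    · intro _
      rfl
    · intro h
      exact absurd h (by simp)
  rintro (s | i | j) (s' | i' | j') h
  · have h1 : (some (Sum.inl s) : Option (S ⊕ (Fin k ⊕ Fin 0))) = some (Sum.inl s') := h
    rw [Sum.inl_injective (Option.some.inj h1)]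
  · obtain ⟨j, _, h2⟩ := key i' (Sum.inl s) h.symm
    exact absurd h2 (by simp)
  · exact j'.elim0
  · obtain ⟨j, _, h2⟩ := key i (Sum.inl s') h
    exact absurd h2 (by simp)
  · have h1 : (Fin.cases none (fun i => some (Sum.inr (Sum.inl i))) i :
        Option (S ⊕ (Fin k ⊕ Fin 0))) = Fin.cases none (fun i => some (Sum.inr (Sum.inl i))) i' := h
    rcases Fin.eq_zero_or_eq_succ i' with h2 | ⟨j, h2⟩
    · subst h2
      have h3 := key0 i h1
      rw [h3]
    · subst h2
      obtain ⟨j', h3, h4⟩ := key i (Sum.inr (Sum.inl j)) h1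
      have h5 : j = j' := Sum.inl_injective (Sum.inr_injective h4)
      rw [h3, h5]
  · exact j'.elim0
  · exact j.elim0
  · exact j.elim0
  · exact j.elim0

lemma red_e {S : Type} {ar : S → ℕ} {M : Type} {k : ℕ} (I : Interp S ar M) (v : Fin k → M) (x : M) :
    IsRed (eτ S k 0) (eτ_ar ar k 0) (mkd I (Fin.cons x v)) (exI (mkd I v) {x}) :=
  red_elt I v (fun j => j.elim0) x

/-- the game without subrelations -/
lemma GEq.toEx {n q : ℕ} {S : Type} {ar : S → ℕ} {M N : Type} {I : Interp S ar M}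
    {J : Interp S ar N} {A : Set M} {B : Set N} {R : Interp S ar M} {T : Interp S ar N}
    (h : GEq n q (fI I A R) (fI J B T)) : GEq n q (exI I A) (exI J B) :=
  GEq.red n q (oτ S) (oτ_inj S) (oτ_ar ar) (red_o I A R) (red_o J B T) h

theorem holds_geq {S : Type} {ar : S → ℕ} {k : ℕ} (φ : GFm S ar k) : ∃ n q : ℕ,
    ∀ (M N : Type) (I : Interp S ar M) (J : Interp S ar N) (v : Fin k → M) (w : Fin k → N),
      GEq n q (mkd I v) (mkd J w) → (φ.Holds I v ↔ φ.Holds J w) := by
  induction φ with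
  | @eq S ar k i j =>
    refine ⟨0, k, fun M N I J v w h => ?_⟩
    exact (atom_xp h).1 (v i, w i) ⟨i, rfl⟩ (v j, w j) ⟨j, rfl⟩
  | @rel S ar k s f =>
    refine ⟨0, k, fun M N I J v w h => ?_⟩
    exact (atom_xp h).2 (Sum.inl s) (fun i => (v (f i), w (f i))) fun i => ⟨f i, rfl⟩
  | not φ ih =>
    obtain ⟨n, q, h⟩ := ih
    exact ⟨n, q, fun M N I J v w he => not_congr (h M N I J v w he)⟩
  | and φ ψ ih₁ ih₂ =>
    obtain ⟨n₁, q₁, h₁⟩ := ih₁
    obtain ⟨n₂, q₂, h₂⟩ := ih₂
    exact ⟨max n₁ n₂, max q₁ q₂, fun M N I J v w he => and_congr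
      (h₁ M N I J v w (GEq.mono (le_max_left _ _) (le_max_left _ _) he))
      (h₂ M N I J v w (GEq.mono (le_max_right _ _) (le_max_right _ _) he))⟩
  | @ex S ar k φ ih =>
    obtain ⟨n, q, h⟩ := ih
    have key : ∀ (M N : Type) (I : Interp S ar M) (J : Interp S ar N) (v : Fin k → M)
        (w : Fin k → N), GEq (n + 1) (max q 2) (mkd I v) (mkd J w) →
        (∃ x, φ.Holds I (Fin.cons x v)) → ∃ y, φ.Holds J (Fin.cons y w) := by
      rintro M N I J v w he ⟨x, hx⟩
      obtain ⟨B, T, -, hB⟩ := he.1 {x} _ (sub_bot _)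
      have hB' := GEq.toEx hB
      obtain ⟨y, rfl⟩ := singleton_of_meq (le_max_right _ _) (meq_of_geq _ _ hB')
      refine ⟨y, (h M N I J _ _ ?_).1 hx⟩
      exact GEq.red n q (eτ S k 0) (eτ_inj S k) (eτ_ar ar k 0) (red_e I v x) (red_e J w y)
        (GEq.mono_q n (le_max_left _ _) hB')
    exact ⟨n + 1, max q 2, fun M N I J v w he =>
      ⟨key M N I J v w he, key N M J I w v (GEq.symm _ _ he)⟩⟩
  | @exSet S ar k φ ih =>
    obtain ⟨n, q, h⟩ := ih
    have key : ∀ (M N : Type) (I : Interp S ar M) (J : Interp S ar N) (v : Fin k → M)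
        (w : Fin k → N), GEq (n + 1) q (mkd I v) (mkd J w) →
        (∃ X : (Fin 1 → M) → Prop, φ.Holds (adI I X) v) →
        ∃ Y : (Fin 1 → N) → Prop, φ.Holds (adI J Y) w := by
      rintro M N I J v w he ⟨X, hX⟩
      obtain ⟨B, T, -, hB⟩ := he.1 (setOf1 X) _ (sub_bot _)
      refine ⟨relOf1 B, (h M N _ _ v w ?_).1 hX⟩
      exact GEq.red n q (nτ S _) (nτ_inj S _) (nτ_ar ar k) (red_n I v X _ (setOf1_iff X))
        (red_n J w (relOf1 B) B fun _ => Iff.rfl) (GEq.toEx hB)
    exact ⟨n + 1, q, fun M N I J v w he =>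
      ⟨key M N I J v w he, key N M J I w v (GEq.symm _ _ he)⟩⟩
  | @exSub S ar k s φ ih =>
    obtain ⟨n, q, h⟩ := ih
    have key : ∀ (M N : Type) (I : Interp S ar M) (J : Interp S ar N) (v : Fin k → M)
        (w : Fin k → N), GEq (n + 1) q (mkd I v) (mkd J w) →
        (∃ R : (Fin (ar s) → M) → Prop, (∀ u, R u → I s u) ∧ φ.Holds (adI I R) v) →
        ∃ R : (Fin (ar s) → N) → Prop, (∀ u, R u → J s u) ∧ φ.Holds (adI J R) w := by
      rintro M N I J v w he ⟨R, hR, hX⟩
      have hin : Function.Injective (fun _ : Unit => (Sum.inl s : S ⊕ (Fin k ⊕ Fin 0))) :=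
        fun _ _ _ => rfl
      obtain ⟨B, T, hT, hB⟩ := he.1 ∅ _ (sub_push (S₀ := Unit) (ar₀ := fun _ => ar s)
        (τ := fun _ => (Sum.inl s : S ⊕ (Fin k ⊕ Fin 0))) (h := fun _ => rfl)
        (I₁ := mkd I v) (I₀ := fun _ => I s) (R := fun _ => R) (fun _ _ => Iff.rfl) fun _ u hu => hR u hu)
      refine ⟨fun u => T (Sum.inl s) u, fun u hu => hT (Sum.inl s) u hu, (h M N _ _ v w ?_).1 hX⟩
      refine GEq.red n q (bτ _ s) (bτ_inj _ s) (bτ_ar ar k s) (red_b I v s R ∅ _ fun u => ?_)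
        (red_b J w s _ B T fun _ => Iff.rfl) hB
      exact red_push (S₀ := Unit) (ar₀ := fun _ => ar s)
        (τ := fun _ => (Sum.inl s : S ⊕ (Fin k ⊕ Fin 0))) (h := fun _ => rfl) hin (fun _ => R) () u
    exact ⟨n + 1, q, fun M N I J v w he =>
      ⟨key M N I J v w he, key N M J I w v (GEq.symm _ _ he)⟩⟩

theorem holds_meq {S : Type} {ar : S → ℕ} {k : ℕ} (φ : GFm S ar k) : φ.Mon → ∃ n q : ℕ,
    ∀ (M N : Type) (I : Interp S ar M) (J : Interp S ar N) (v : Fin k → M) (w : Fin k → N),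
      MEq n q (mkd I v) (mkd J w) → (φ.Holds I v ↔ φ.Holds J w) := by
  induction φ with
  | @eq S ar k i j =>
    refine fun _ => ⟨0, k, fun M N I J v w h => ?_⟩
    exact (atom_xp h).1 (v i, w i) ⟨i, rfl⟩ (v j, w j) ⟨j, rfl⟩
  | @rel S ar k s f =>
    refine fun _ => ⟨0, k, fun M N I J v w h => ?_⟩
    exact (atom_xp h).2 (Sum.inl s) (fun i => (v (f i), w (f i))) fun i => ⟨f i, rfl⟩
  | not φ ih =>
    intro hm
    obtain ⟨n, q, h⟩ := ih hm
    exact ⟨n, q, fun M N I J v w he => not_congr (h M N I J v w he)⟩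
  | and φ ψ ih₁ ih₂ =>
    intro hm
    obtain ⟨n₁, q₁, h₁⟩ := ih₁ hm.1
    obtain ⟨n₂, q₂, h₂⟩ := ih₂ hm.2
    exact ⟨max n₁ n₂, max q₁ q₂, fun M N I J v w he => and_congr
      (h₁ M N I J v w (MEq.mono (le_max_left _ _) (le_max_left _ _) he))
      (h₂ M N I J v w (MEq.mono (le_max_right _ _) (le_max_right _ _) he))⟩
  | @ex S ar k φ ih =>
    intro hm
    obtain ⟨n, q, h⟩ := ih hm
    have key : ∀ (M N : Type) (I : Interp S ar M) (J : Interp S ar N) (v : Fin k → M)
        (w : Fin k → N), MEq (n + 1) (max q 2) (mkd I v) (mkd J w) →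
        (∃ x, φ.Holds I (Fin.cons x v)) → ∃ y, φ.Holds J (Fin.cons y w) := by
      rintro M N I J v w he ⟨x, hx⟩
      obtain ⟨B, hB⟩ := he.1 {x}
      obtain ⟨y, rfl⟩ := singleton_of_meq (le_max_right _ _) hB
      refine ⟨y, (h M N I J _ _ ?_).1 hx⟩
      exact MEq.red n q (eτ S k 0) (eτ_ar ar k 0) (red_e I v x) (red_e J w y)
        (MEq.mono_q n (le_max_left _ _) hB)
    exact ⟨n + 1, max q 2, fun M N I J v w he =>
      ⟨key M N I J v w he, key N M J I w v (MEq.symm _ _ he)⟩⟩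
  | @exSet S ar k φ ih =>
    intro hm
    obtain ⟨n, q, h⟩ := ih hm
    have key : ∀ (M N : Type) (I : Interp S ar M) (J : Interp S ar N) (v : Fin k → M)
        (w : Fin k → N), MEq (n + 1) q (mkd I v) (mkd J w) →
        (∃ X : (Fin 1 → M) → Prop, φ.Holds (adI I X) v) →
        ∃ Y : (Fin 1 → N) → Prop, φ.Holds (adI J Y) w := by
      rintro M N I J v w he ⟨X, hX⟩
      obtain ⟨B, hB⟩ := he.1 (setOf1 X)
      refine ⟨relOf1 B, (h M N _ _ v w ?_).1 hX⟩
      exact MEq.red n q (nτ S _) (nτ_ar ar k) (red_n I v X _ (setOf1_iff X))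
        (red_n J w (relOf1 B) B fun _ => Iff.rfl) hB
    exact ⟨n + 1, q, fun M N I J v w he =>
      ⟨key M N I J v w he, key N M J I w v (MEq.symm _ _ he)⟩⟩
  | @exSub S ar k s φ ih => exact fun hm => hm.elim

end Pool.Agent.Helper12.GW

namespace Pool.Agent.Helper29.GW

open Pool.Agent.Helper20.Spectra Pool.Agent.Helper29.TD Pool.Agent.Helper29.MW Pool.Agent.Helper12.GW

variable {S : Type} {ar : S → ℕ}

/-- the game with sets and subrelations determines the truth of MSO₂ sentences -/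
theorem gsat_geq (φ : GFm S ar 0) : ∃ n q : ℕ, ∀ (M N : Type) (I : Interp S ar M) (J : Interp S ar N),
    GEq n q I J → (GSat I φ ↔ GSat J φ) := by
  obtain ⟨n, q, h⟩ := holds_geq φ
  refine ⟨n, q, fun M N I J he => h M N I J _ _ ?_⟩
  refine GEq.red n q (fun s => match s with
    | Sum.inl s => s
    | Sum.inr (Sum.inl i) => i.elim0
    | Sum.inr (Sum.inr j) => j.elim0) ?_ ?_ ?_ ?_ he
  · rintro (s | i | j) (s' | i' | j') e
    · exact congrArg Sum.inl e
    · exact i'.elim0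
    · exact j'.elim0
    · exact i.elim0
    · exact i.elim0
    · exact i.elim0
    · exact j.elim0
    · exact j.elim0
    · exact j.elim0
  · rintro (s | i | j)
    · rfl
    · exact i.elim0
    · exact j.elim0
  · rintro (s | i | j) u
    · exact Iff.rfl
    · exact i.elim0
    · exact j.elim0
  · rintro (s | i | j) u
    · exact Iff.rfl
    · exact i.elim0
    · exact j.elim0

/-- the game with sets determines the truth of MSO sentences -/
theorem gsat_meq (φ : GFm S ar 0) (hφ : φ.Mon) : ∃ n q : ℕ, ∀ (M N : Type) (I : Interp S ar M)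
    (J : Interp S ar N), MEq n q I J → (GSat I φ ↔ GSat J φ) := by
  obtain ⟨n, q, h⟩ := holds_meq φ hφ
  refine ⟨n, q, fun M N I J he => h M N I J _ _ ?_⟩
  refine MEq.red n q (fun s => match s with
    | Sum.inl s => s
    | Sum.inr (Sum.inl i) => i.elim0
    | Sum.inr (Sum.inr j) => j.elim0) ?_ ?_ ?_ he
  · rintro (s | i | j)
    · rfl
    · exact i.elim0
    · exact j.elim0
  · rintro (s | i | j) u
    · exact Iff.rfl
    · exact i.elim0
    · exact j.elim0
  · rintro (s | i | j) u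
    · exact Iff.rfl
    · exact i.elim0
    · exact j.elim0

end Pool.Agent.Helper29.GW
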